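import Pool.Agent.Lib.MP_9b0515_pr.Final

set_option autoImplicit false

open MeasureTheory ProbabilityTheory
open Pool.Agent.MP_9b0515_pr

namespace Pool.Agent.Results.MP_9b0515_pr.HalfSpaceNotOptimal

/-- `Ω ⊆ ℝⁿ` is periodic: it is Lebesgue measurable, `Ω + v_i = Ωᶜ` for every standard basis
vector `v_i`, and `-Ω = Ωᶜ`, where the equalities of sets are understood up to Lebesgue null
sets (with exact equalities no set would be periodic, because of the origin). -/
def IsPeriodic {n : ℕ} (Ω : Set (EuclideanSpace ℝ (Fin n))) : Prop :=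
  NullMeasurableSet Ω volume ∧
    (∀ i : Fin n,
      volume (symmDiff ((fun x => x + EuclideanSpace.single i (1 : ℝ)) '' Ω) Ωᶜ) = 0) ∧
    volume (symmDiff ((fun x => -x) '' Ω) Ωᶜ) = 0

/-- `B ⊆ ℝⁿ` is a periodic half space: `B = {x : sin (π (ε_1 x_1 + ... + ε_n x_n)) ≥ 0}` for some
signs `ε_i ∈ {-1, 1}`. -/
def IsPeriodicHalfSpace {n : ℕ} (B : Set (EuclideanSpace ℝ (Fin n))) : Prop :=
  ∃ ε : Fin n → ℝ, (∀ i, ε i = 1 ∨ ε i = -1) ∧
    B = {x | 0 ≤ Real.sin (Real.pi * ∑ i, ε i * x i)}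

/-- The noise stability `P(X ∈ A, ρ X + √(1 - ρ²) Y ∈ A)` for independent standard Gaussian
random vectors `X`, `Y` in `ℝⁿ`. -/
noncomputable def noiseStability {n : ℕ} (ρ : ℝ) (A : Set (EuclideanSpace ℝ (Fin n))) : ℝ :=
  ((stdGaussian (EuclideanSpace ℝ (Fin n))).prod
    (stdGaussian (EuclideanSpace ℝ (Fin n)))).real
      {p | p.1 ∈ A ∧ ρ • p.1 + √(1 - ρ ^ 2) • p.2 ∈ A}

/-- Flipping the signs of some coordinates. -/
noncomputable def signFlip (n : ℕ) (ε : Fin n → ℝ) : Eu n ≃ₗᵢ[ℝ] Eu n :=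
  open Classical in
  LinearIsometryEquiv.piLpCongrRight 2
    (fun i => if ε i = 1 then LinearIsometryEquiv.refl ℝ ℝ else LinearIsometryEquiv.neg ℝ)

theorem signFlip_apply (n : ℕ) (ε : Fin n → ℝ) (hε : ∀ i, ε i = 1 ∨ ε i = -1) (x : Eu n) (i : Fin n) :
    signFlip n ε x i = ε i * x i := by
  unfold signFlip
  rw [LinearIsometryEquiv.piLpCongrRight_apply]
  rcases hε i with h | h
  · simp [h]
  · have h1 : ¬ ((-1 : ℝ) = 1) := by norm_num
    simp [h, h1]

theorem stab_preimage (n : ℕ) (ρ : ℝ) (T : Eu n ≃ₗᵢ[ℝ] Eu n) (A : Set (Eu n))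
    (hA : MeasurableSet A) : noiseStability ρ (T ⁻¹' A) = noiseStability ρ A := by
  have hT : Measurable T := T.continuous.measurable
  have hmap : ((stdGaussian (Eu n)).prod (stdGaussian (Eu n))).map (Prod.map T T) =
      (stdGaussian (Eu n)).prod (stdGaussian (Eu n)) := by
    rw [← Measure.map_prod_map _ _ hT hT, stdGaussian_map]
  have hset : MeasurableSet {p : Eu n × Eu n | p.1 ∈ A ∧ ρ • p.1 + √(1 - ρ ^ 2) • p.2 ∈ A} := by
    have hm : Measurable (fun p : Eu n × Eu n => ρ • p.1 + √(1 - ρ ^ 2) • p.2) := by fun_prop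
    exact (measurable_fst hA).inter (hm hA)
  unfold noiseStability
  conv_rhs => rw [← hmap]
  rw [measureReal_def, measureReal_def, Measure.map_apply (hT.prodMap hT) hset]
  congr 2
  ext p
  simp [Prod.map]

/-- In every dimension `n ≥ 3` and for every `ρ ∈ (1/2, 1)` there is a periodic set whose noise
stability is strictly larger than that of every periodic half space. -/
theorem result (n : ℕ) (hn : 3 ≤ n) (ρ : ℝ) (hρ1 : 1 / 2 < ρ) (hρ2 : ρ < 1) :
    ∃ Ω : Set (EuclideanSpace ℝ (Fin n)), IsPeriodic Ω ∧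
      ∀ B : Set (EuclideanSpace ℝ (Fin n)), IsPeriodicHalfSpace B →
        noiseStability ρ B < noiseStability ρ Ω := by
  obtain ⟨Ω, hm, hper, hneg, hlt⟩ := main n hn ρ hρ1 hρ2
  refine ⟨Ω, ⟨hm.nullMeasurableSet, ?_, ?_⟩, ?_⟩
  · intro i
    rw [measure_symmDiff_eq_zero_iff]
    refine Filter.eventuallyEq_set.2 ?_
    filter_upwards [hper i] with x hx
    rw [Set.mem_compl_iff, ← hx]
    constructor
    · rintro ⟨y, hy, rfl⟩
      simpa using hy
    · intro h
      exact ⟨x - EuclideanSpace.single i (1 : ℝ), h, by simp⟩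
  · rw [measure_symmDiff_eq_zero_iff]
    refine Filter.eventuallyEq_set.2 ?_
    filter_upwards [hneg] with x hx
    rw [Set.mem_compl_iff, ← hx]
    constructor
    · rintro ⟨y, hy, rfl⟩
      simpa using hy
    · intro h
      exact ⟨-x, h, by simp⟩
  · rintro B ⟨ε, hε, rfl⟩
    have hBm : MeasurableSet {x : Eu n | 0 ≤ Real.sin (Real.pi * ssum n x)} :=
      measurableSet_le measurable_const (by have := measurable_ssum n; fun_prop)
    have h1 : {x : EuclideanSpace ℝ (Fin n) | 0 ≤ Real.sin (Real.pi * ∑ i, ε i * x i)} =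
        (signFlip n ε) ⁻¹' {x : Eu n | 0 ≤ Real.sin (Real.pi * ssum n x)} := by
      ext x
      simp only [Set.mem_ofPred_eq, Set.mem_preimage, ssum, signFlip_apply n ε hε]
    rw [h1, stab_preimage n ρ (signFlip n ε) _ hBm]
    exact hlt

end Pool.Agent.Results.MP_9b0515_pr.HalfSpaceNotOptimal
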